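import Pool.Agent.Helper52_ABA.LStmts

/-! # AREA (MP_d857f1_al, part B, squad ABL) -/

set_option autoImplicit false

namespace Pool.Agent.ABA.B.H76

open Pool.Agent.ABA.B Pool.Agent.ABA.B.TG

variable {V E : Type} {S : TG V E}

lemma ar_le {x : V} {w : List E} {n : ℕ} (h : S.D x w n) : S.ar w ≤ n :=
  Nat.sInf_le ⟨x, h⟩

lemma ar_nil : S.ar [] = 0 := by
  by_cases h : Nonempty V
  · obtain ⟨x⟩ := h
    exact Nat.le_zero.1 (ar_le (D.nil x))
  · have h1 : {n | ∃ x, S.D x ([] : List E) n} = ∅ :=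
      Set.eq_empty_of_forall_notMem (fun n ⟨x, _⟩ => h ⟨x⟩)
    unfold TG.ar
    rw [h1, Nat.sInf_empty]

lemma d_ar (hS : S.SC) {x : V} {w : List E} (h : S.IsP x w x) : S.D x w (S.ar w) := by
  obtain ⟨n, hn⟩ := hS x w h
  have hne : {n | ∃ x, S.D x w n}.Nonempty := ⟨n, x, hn⟩
  obtain ⟨x', hx'⟩ := Nat.sInf_mem hne
  cases w with
  | nil => rw [ar_nil]; exact D.nil x
  | cons e w =>
    have h1 : x' = x := hx'.src_eq.trans hn.src_eq.symm
    subst h1
    exact hx'

/-- closing repeatedly -/
lemma close_path (hCl : CloseStmt) (γ : List E) : ∀ (x : V) (α β : List E) (n : ℕ),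
    S.D x (α ++ γ ++ (S.rv γ ++ β)) n → ∃ m ≤ n, S.D x (α ++ β) m := by
  induction γ with
  | nil => intro x α β n h; exact ⟨n, le_refl n, by simpa using h⟩
  | cons e γ ih =>
    intro x α β n h
    have h1 : S.D x ((α ++ [e]) ++ γ ++ (S.rv γ ++ (S.inv e :: β))) n := by
      simpa using h
    obtain ⟨m, hm, h2⟩ := ih x (α ++ [e]) (S.inv e :: β) n h1
    have h3 : S.D x (α ++ e :: S.inv e :: β) m := by simpa using h2
    obtain ⟨k, hk, h4⟩ := hCl V E S x α β e m h3
    exact ⟨k, hk.trans hm, h4⟩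

theorem area (hI : InsStmt) (hA : AddStmt) (hR : RotStmt) (hC : ColStmt) (hV : RevStmt)
    (hCl : CloseStmt) : AreaStmt := by
  intro V E S hS
  refine ⟨fun x w h => d_ar hS h, fun x w n h => ar_le h, ?_, ?_, ?_, ?_, ?_, ?_⟩
  · -- rotation
    have key : ∀ α β : List E, S.Cl (α ++ β) → S.ar (β ++ α) ≤ S.ar (α ++ β) := by
      rintro α β ⟨x, hx⟩
      obtain ⟨y, h1, h2⟩ := isP_append.1 hx
      exact ar_le (hR V E S x y α β _ (d_ar hS hx) h1)
    intro α β h
    refine le_antisymm ?_ (key α β h)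
    apply key
    obtain ⟨x, hx⟩ := h
    obtain ⟨y, h1, h2⟩ := isP_append.1 hx
    exact ⟨y, isP_append.2 ⟨x, h2, h1⟩⟩
  · -- inverse
    have key : ∀ w : List E, S.Cl w → S.ar (S.rv w) ≤ S.ar w := by
      rintro w ⟨x, hx⟩
      exact ar_le (hV V E S x w _ (d_ar hS hx))
    intro w h
    refine le_antisymm (key w h) ?_
    have h1 := key (S.rv w) (by
      obtain ⟨x, hx⟩ := h
      exact ⟨x, hx.rv⟩)
    rwa [rv_rv] at h1
  · -- insertion
    rintro α β γ ⟨x, hx⟩ ⟨z, hz⟩
    obtain ⟨y', h1, h2⟩ := isP_append.1 hx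
    obtain ⟨y, h3, h4⟩ := isP_append.1 h1
    cases γ with
    | nil => simp
    | cons e γ =>
      have hzy : z = y := hz.src_eq h4
      subst hzy
      have hy : y' = z := h4.eq hz
      subst hy
      exact ar_le (hI V E S x y' α β (e :: γ) _ _ (d_ar hS (isP_append.2 ⟨y', h3, h2⟩)) h3
        (d_ar hS hz))
  · -- closing
    rintro α β e ⟨x, hx⟩
    obtain ⟨m, hm, h⟩ := hCl V E S x α β e _ (d_ar hS hx)
    exact (ar_le h).trans hm
  · -- gluing along a path
    rintro α β γ ⟨x, hx⟩ ⟨z, hz⟩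
    by_cases hxz : x = z
    · subst hxz
      have h1 := (d_ar hS hx).append (d_ar hS hz)
      obtain ⟨m, hm, h⟩ := close_path hCl γ x α β _ h1
      exact (ar_le h).trans hm
    · -- then gamma is empty
      cases γ with
      | nil =>
        simp only [List.append_nil, rv_nil, List.nil_append] at hx hz ⊢
        cases α with
        | nil => simp
        | cons a α =>
          cases β with
          | nil => simp
          | cons b β =>
            have h1 : {n | ∃ x, S.D x (a :: α ++ b :: β) n} = ∅ := by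
              refine Set.eq_empty_of_forall_notMem (fun n hn => ?_)
              obtain ⟨u, hu⟩ := hn
              obtain ⟨y, h2, h3⟩ := isP_append.1 hu.isP
              have h4 : u = x := h2.src_eq hx
              subst h4
              have h5 : y = u := h2.eq hx
              subst h5
              exact hxz (h3.src_eq hz)
            have h2 : S.ar (a :: α ++ b :: β) = 0 := by
              unfold TG.ar
              rw [h1, Nat.sInf_empty]
            omega
      | cons e γ =>
        exfalso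
        obtain ⟨y, h1, h2⟩ := isP_append.1 hx
        obtain ⟨u, h3, h4⟩ := isP_append.1 hz
        have h5 := h3.rv
        rw [rv_rv] at h5
        have h6 : y = u := h2.src_eq h5
        subst h6
        exact hxz (h2.eq h5)
  · -- triangles
    intro α β e e' e'' ht hcl
    obtain ⟨x, hx⟩ := hcl
    obtain ⟨y, h1, h2⟩ := isP_append.1 hx
    have h3 : S.IsP x (α ++ e' :: e'' :: β) x := by
      refine isP_append.2 ⟨y, h1, ?_⟩
      refine ⟨ht.src'.trans h2.1, ht.mid', ?_⟩
      rw [ht.tgt']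
      exact h2.2
    exact ⟨ar_le (hC V E S x α β e e' e'' _ (d_ar hS h3) ht),
      ar_le (hA V E S x α β e e' e'' _ (d_ar hS hx) ht)⟩

end Pool.Agent.ABA.B.H76
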