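import Pool.Agent.Helper52_ABA.LStmts

/-! # NSB (MP_d857f1_al, part B, squad ABL): shape of nonsingular discs -/

set_option autoImplicit false

namespace Pool.Agent.ABA.B.H76

open Pool.Agent.ABA.B Pool.Agent.ABA.B.TG

variable {V E : Type} {S : TG V E}

lemma cor_symm {a b : E} (h : S.Cor a b) : S.Cor b a := by
  obtain ⟨c, hc⟩ := h
  exact ⟨_, S.tri_swap hc⟩

lemma cor1 {e e' e'' : E} (h : S.Tri e e' e'') : S.Cor e e' := ⟨_, h⟩

lemma tri_inv {e e' e'' : E} (h : S.Tri e e' e'') : S.Tri (S.inv e) (S.inv e'') (S.inv e') :=
  S.tri_rot (S.tri_swap h)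

lemma cor2 {e e' e'' : E} (h : S.Tri e e' e'') : S.Cor (S.inv e) (S.inv e'') := ⟨_, tri_inv h⟩

lemma cor3 {e e' e'' : E} (h : S.Tri e e' e'') : S.Cor (S.inv e') e'' := ⟨_, S.tri_rot h⟩

lemma chain_rev {v : List E} (h : v.IsChain S.Cor) : v.reverse.IsChain S.Cor := by
  rw [List.isChain_reverse]
  exact h.imp (fun a b hab => cor_symm hab)

lemma last_map {α : List E} (i : ℕ) (h : i + 1 = α.length) :
    (α.map S.inv).getLast? = (α.map S.inv)[i]? := by
  rw [List.getLast?_eq_getElem?, List.length_map, ← h]
  rfl

theorem nsb (hI : InsStmt) (hR : RotStmt) (_hC : ColStmt) : NsBasicStmt := by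
  intro V E S e α n X Y J I h
  induction h with
  | triv e =>
    refine ⟨by simp, ⟨rfl, rfl⟩, ?_, rfl, ?_, ?_, ?_, ?_, ?_, ?_, ?_⟩
    · have h1 := D.br (S := S) (e := S.inv e) (D.nil _) (D.nil _)
      simpa using h1
    · intro _; exact ⟨rfl, rfl, rfl⟩
    · intro h; exact absurd rfl h
    · simp
    · simp
    · simp
    · simp
    · simp
  | @tb e e' e'' α' α'' n' n'' X' Y' X'' Y'' J' I' J'' I'' ht hn' hn'' ih' ih'' =>
    obtain ⟨a1, a2, a3, a4, a5, a6, ⟨a7, a8, a9⟩, ⟨b7, b8, b9⟩, a10, a11, a12⟩ := ih'
    obtain ⟨c1, c2, c3, c4, c5, c6, ⟨c7, c8, c9⟩, ⟨d7, d8, d9⟩, c10, c11, c12⟩ := ih''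
    have hX' : X' ≠ [] := by rintro rfl; simp at a7
    have hY' : Y' ≠ [] := by rintro rfl; simp at b7
    have hX'' : X'' ≠ [] := by rintro rfl; simp at c7
    have hY'' : Y'' ≠ [] := by rintro rfl; simp at d7
    refine ⟨by simp [a1], ?_, ?_, ?_, ?_, ?_, ⟨?_, ?_, ?_⟩, ⟨?_, ?_, ?_⟩, ?_, ?_, ?_⟩
    · refine isP_append.2 ⟨S.tgt e', ?_, ?_⟩
      · rw [← ht.src']; exact a2
      · rw [← ht.mid', ← ht.tgt']; exact c2
    · have h1 : S.D (S.tgt e'') ([S.inv e''] ++ (S.inv e' :: α') ++ α'') (n'' + n') := by
        refine hI V E S (S.tgt e'') (S.tgt e') [S.inv e''] α'' (S.inv e' :: α') n'' n' c3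
          ⟨rfl, ?_⟩ a3
        rw [tgt_inv]
        exact ht.mid'
      have h2 := D.tri (S := S) (e := S.inv e) (e' := S.inv e'') (e'' := S.inv e')
        (a := α' ++ α'') (n := n'' + n') (tri_inv ht) (by
          have h3 : S.src (S.inv e) = S.tgt e'' := ht.tgt'.symm
          rw [h3]
          simpa using h1)
      have h4 : n' + n'' + 1 = n'' + n' + 1 := by ring
      rw [h4]
      exact h2
    · simp only [List.length_append, List.length_cons]
      omega
    · intro h0; omega
    · intro _
      constructor
      · have := List.length_pos_iff.2 hX'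
        simp only [List.length_cons]
        omega
      · have := List.length_pos_iff.2 hY''
        simp only [List.length_cons]
        omega
    · rfl
    · rw [List.getLast?_cons_of_ne_nil hX', a8, List.head?_append_of_ne_nil _ a1]
    · rw [List.isChain_cons]
      refine ⟨?_, a9⟩
      intro y hy
      rw [a7] at hy
      cases hy
      exact cor1 ht
    · rfl
    · rw [List.getLast?_cons_of_ne_nil hY'', d8, List.map_append,
        List.getLast?_append_of_ne_nil _ (by simpa using c1)]
    · rw [List.isChain_cons]
      refine ⟨?_, d9⟩
      intro y hy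
      rw [d7] at hy
      cases hy
      exact cor2 ht
    · intro v hv
      rw [List.mem_append, List.mem_cons] at hv
      rcases hv with hv | rfl | hv
      · exact a10 v hv
      · rw [List.isChain_append]
        refine ⟨chain_rev b9, c9, ?_⟩
        intro x hx y hy
        rw [List.getLast?_reverse, b7] at hx
        rw [c7] at hy
        cases hx
        cases hy
        exact cor3 ht
      · exact c10 v hv
    · intro i v hv
      rcases lt_trichotomy i J'.length with hi | hi | hi
      · rw [List.getElem?_append_left hi] at hv
        obtain ⟨h1, h2⟩ := a11 i v hv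
        constructor
        · rw [List.map_append, List.getElem?_append_left (by simp; omega)]
          exact h1
        · rw [List.getElem?_append_left (by omega)]
          exact h2
      · subst hi
        rw [List.getElem?_append_right (le_refl _)] at hv
        simp only [Nat.sub_self, List.getElem?_cons_zero, Option.some.injEq] at hv
        subst hv
        constructor
        · rw [List.head?_append_of_ne_nil _ (by simpa using hY'), List.head?_reverse, b8,
            last_map _ a4, List.map_append, List.getElem?_append_left (by simp; omega)]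
        · rw [List.getLast?_append_of_ne_nil _ hX'', c8, List.getElem?_append_right (by omega),
            a4, Nat.sub_self, List.head?_eq_getElem?]
      · rw [List.getElem?_append_right (by omega)] at hv
        obtain ⟨j, hj⟩ : ∃ j, i - J'.length = j + 1 := ⟨i - J'.length - 1, by omega⟩
        rw [hj, List.getElem?_cons_succ] at hv
        obtain ⟨h1, h2⟩ := c11 j v hv
        constructor
        · rw [List.map_append, List.getElem?_append_right (by simp; omega), h1]
          congr 1
          simp
          omega
        · rw [List.getElem?_append_right (by omega), h2]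
          congr 1
          omega
    · intro v hv
      rcases List.mem_append.1 hv with hv | hv
      · exact a12 v hv
      · exact c12 v hv
  | @ta e e' e'' α n X Y v J I ht hn hα ih =>
    obtain ⟨a1, a2, a3, a4, a5, a6, ⟨a7, a8, a9⟩, ⟨b7, b8, b9⟩, a10, a11, a12⟩ := ih
    have hX : X ≠ [] := by rintro rfl; simp at a7
    have hY : Y ≠ [] := by rintro rfl; simp at b7
    have hJ : J.length + 1 = α.length := by
      simp only [List.length_append, List.length_cons, List.length_nil] at a4
      omega
    obtain ⟨v1, v2⟩ := a11 J.length v (by simp)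
    have v1' : v.head? = (α.map S.inv)[J.length]? := by
      rw [v1, List.map_append, List.getElem?_append_left (by simp; omega)]
    have v2' : v.getLast? = some (S.inv e'') := by
      rw [v2, List.getElem?_append_right (by omega), hJ, Nat.sub_self]
      rfl
    have hv : v ≠ [] := by rintro rfl; simp at v2'
    have hn0 : n ≠ 0 := by
      intro h0
      obtain ⟨h1, -, -⟩ := a5 h0
      have h2 := congrArg List.length h1
      have := List.length_pos_iff.2 hα
      simp only [List.length_append, List.length_cons, List.length_nil] at h2
      omega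
    obtain ⟨z, p1, p2⟩ := isP_append.1 a2
    have p3 : z = S.tgt e := by
      rw [← ht.tgt']
      exact p2.1.symm
    subst p3
    refine ⟨hα, ?_, ?_, hJ, ?_, ?_, ⟨?_, ?_, ?_⟩, ⟨?_, ?_, ?_⟩, ?_, ?_, ?_⟩
    · rw [← ht.src']; exact p1
    · have h1 : S.D (S.tgt e) ([S.inv e''] ++ (S.inv e' :: α)) n := by
        refine hR V E S (S.tgt e') (S.tgt e) (S.inv e' :: α) [S.inv e''] n a3 ⟨rfl, ?_⟩
        rw [tgt_inv]
        exact p1
      exact D.tri (S := S) (e := S.inv e) (tri_inv ht) h1
    · intro h0; omega
    · intro _
      constructor
      · have := List.length_pos_iff.2 hX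
        simp only [List.length_cons]
        omega
      · have := List.length_pos_iff.2 hv
        simp only [List.length_cons, List.length_reverse]
        omega
    · rfl
    · rw [List.getLast?_cons_of_ne_nil hX, a8, List.head?_append_of_ne_nil _ hα]
    · rw [List.isChain_cons]
      refine ⟨?_, a9⟩
      intro y hy
      rw [a7] at hy
      cases hy
      exact cor1 ht
    · rfl
    · rw [List.getLast?_cons_of_ne_nil (by simpa using hv), List.getLast?_reverse, v1',
        last_map _ hJ]
    · rw [List.isChain_cons]
      refine ⟨?_, chain_rev (a10 v (by simp))⟩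
      intro y hy
      rw [List.head?_reverse, v2'] at hy
      cases hy
      exact cor2 ht
    · intro w hw
      exact a10 w (by simp [hw])
    · intro i w hw
      have hi : i < J.length := by
        by_contra hc
        rw [List.getElem?_eq_none (by omega)] at hw
        cases hw
      obtain ⟨h1, h2⟩ := a11 i w (by rw [List.getElem?_append_left hi]; exact hw)
      constructor
      · rw [h1, List.map_append, List.getElem?_append_left (by simp; omega)]
      · rw [h2, List.getElem?_append_left (by omega)]
    · intro w hw
      rcases List.mem_cons.1 hw with rfl | hw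
      · refine ⟨(a6 hn0).2, ?_⟩
        rw [List.isChain_append]
        refine ⟨b9, ?_, ?_⟩
        · cases w with
          | nil => simp
          | cons y w => simp
        · intro x hx y hy
          rw [b8, List.map_append, List.getLast?_append_of_ne_nil _ (by simp)] at hx
          simp only [List.map_cons, List.map_nil, List.getLast?_singleton, S.inv_inv,
            Option.mem_def, Option.some.injEq] at hx
          subst hx
          have hy2 : w.head? = some y := by
            cases w with
            | nil => simp at hy
            | cons y' w => simpa using hy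
          rw [b7] at hy2
          cases hy2
          exact cor_symm (cor3 ht)
      · exact a12 w hw

end Pool.Agent.ABA.B.H76
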